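import Pool.Agent.Lib.MP_3b2c1c_al.Thompson

set_option autoImplicit false

/-!
# Brodskii's quasivariety is strictly smaller than the class of locally indicable groups, and
Thompson's group `F` is not in it
-/

namespace Pool.Agent.Results.MP_3b2c1c_al.ThompsonGroup

open Pool.Agent.Lib.MP_3b2c1c_al

universe u

/-- There is a two-generated locally indicable group outside Brodskii's quasivariety; Thompson's
group `F`, which is bi-orderable and locally indicable, is such a group. -/
theorem result :
    (∃ (G : Type u) (_ : Group G) (a b : G),
      Subgroup.closure {a, b} = ⊤ ∧ LocallyIndicable G ∧ ¬ Qtilde G) ∧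
    BiOrderable (ULift.{u} ThompsonF) ∧ LocallyIndicable (ULift.{u} ThompsonF) ∧
      ¬ Qtilde (ULift.{u} ThompsonF) :=
  ⟨qtilde_ne, thompson_biOrderable_ulift, thompson_locallyIndicable_ulift, thompson_not_qtilde⟩

end Pool.Agent.Results.MP_3b2c1c_al.ThompsonGroup
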